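import Mathlib
import Pool.Agent.H81.Climb

namespace Pool.Agent.Results.MP_75c46b_gt.ExactDist

/-- `C 0, …, C n` is a chain: `C i` meets `C j` if and only if `|i - j| ≤ 1`. -/
def IsChainOfSets {X : Type} (n : ℕ) (C : Fin (n + 1) → Set X) : Prop :=
  ∀ i j, (C i ∩ C j).Nonempty ↔ |((i : ℕ) : ℤ) - ((j : ℕ) : ℤ)| ≤ 1

/-- The width `w(X)` of a compact metric space. -/
noncomputable def width (X : Type) [MetricSpace X] : ℝ :=
  sSup {a : ℝ | ∀ ε > 0, ∃ 𝒞 : Set (Set X), 𝒞.Finite ∧ ⋃₀ 𝒞 = Set.univ ∧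
    (∀ U ∈ 𝒞, IsOpen U ∧ Metric.diam U < ε) ∧
    ∀ (n : ℕ) (C : Fin (n + 1) → Set X), (∀ i, C i ∈ 𝒞) → IsChainOfSets n C →
      ∃ A ∈ 𝒞, A.Nonempty ∧ ∀ p ∈ A, ∀ q ∈ ⋃ i, C i, a ≤ dist p q}

/-- For every `ε > 0` there is an `ε`-map of `Y` onto the arc `[0,1]`. -/
def ArcLike (Y : Type) [MetricSpace Y] : Prop :=
  ∀ ε > 0, ∃ g : Y → unitInterval, Continuous g ∧ Function.Surjective g ∧
    ∀ z, Metric.diam (g ⁻¹' {z}) ≤ ε

open Pool.Agent.H81.Climb in
theorem approx (X : Type) [MetricSpace X] [CompactSpace X] [ConnectedSpace X]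
    (g : X → ℝ) (hg : Continuous g) (a : ℝ) (ha : 0 < a) (haw : a < width X)
    (ε η : ℝ) (hε : 0 < ε) (hη : 0 < η) :
    ∃ x y, |dist x y - a| ≤ ε ∧ |g x - g y| < η := by
  have hne : {a : ℝ | ∀ ε > 0, ∃ 𝒞 : Set (Set X), 𝒞.Finite ∧ ⋃₀ 𝒞 = Set.univ ∧
      (∀ U ∈ 𝒞, IsOpen U ∧ Metric.diam U < ε) ∧
      ∀ (n : ℕ) (C : Fin (n + 1) → Set X), (∀ i, C i ∈ 𝒞) → IsChainOfSets n C →
        ∃ A ∈ 𝒞, A.Nonempty ∧ ∀ p ∈ A, ∀ q ∈ ⋃ i, C i, a ≤ dist p q}.Nonempty := by
    by_contra h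
    rw [Set.not_nonempty_iff_eq_empty] at h
    rw [width, h, Real.sSup_empty] at haw
    linarith
  obtain ⟨a', ha', haa⟩ := exists_lt_of_lt_csSup hne haw
  obtain ⟨δ, hδ, hδ'⟩ := Metric.uniformContinuous_iff.1
    (CompactSpace.uniformContinuous_of_continuous hg) (η / 2) (by linarith)
  obtain ⟨p, -, hp⟩ := isCompact_univ.exists_isMinOn Set.univ_nonempty hg.continuousOn
  obtain ⟨q, -, hq⟩ := isCompact_univ.exists_isMaxOn Set.univ_nonempty hg.continuousOn
  obtain ⟨𝒞, -, hcov, hop, hch⟩ := ha' (min δ (ε / 2)) (lt_min hδ (by linarith))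
  have hd : ∀ U ∈ 𝒞, ∀ x ∈ U, ∀ y ∈ U, dist x y < min δ (ε / 2) := fun U hU x hx y hy =>
    (Metric.dist_le_diam_of_mem Metric.isBounded_of_compactSpace hx hy).trans_lt (hop U hU).2
  obtain ⟨k, D, h1, h2, h3, h4, h5⟩ := exists_chain 𝒞 p q
    (exists_wchain 𝒞 (fun U hU => (hop U hU).1) hcov p q)
  obtain ⟨β, b0, b1, b2⟩ := points k D p q h2 h3 h4
  obtain ⟨A, hA, ⟨x, hx⟩, hfar⟩ := hch k (fun i => D i) (fun i => h1 i) (by
    intro i j
    have hi := i.2
    have hj := j.2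
    constructor
    · intro h
      by_contra h'
      rcases lt_abs.1 (not_le.1 h') with h' | h'
      · exact h5 j i (by omega) (by omega) (by rwa [Set.inter_comm])
      · exact h5 i j (by omega) (by omega) h
    · intro h
      have h' := abs_le.1 h
      rcases (by omega : (i : ℕ) = j ∨ (i : ℕ) + 1 = j ∨ (j : ℕ) + 1 = i) with e | e | e
      · dsimp only
        rw [← e, Set.inter_self]
        exact ⟨_, (b2 i (by omega)).1⟩
      · dsimp only
        rw [← e]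
        exact h4 i (by omega)
      · dsimp only
        rw [← e, Set.inter_comm]
        exact h4 j (by omega))
  obtain ⟨m, E, e1, e2, e3, e4⟩ := exists_wchain 𝒞 (fun U hU => (hop U hU).1) hcov p x
  obtain ⟨α, a0, a1, a2⟩ := points m E p x e2 e3 e4
  obtain ⟨u, v, huv, huv'⟩ := climb g a (min δ (ε / 2)) (η / 2) ha (lt_min hδ (by linarith))
    (by linarith) (fun x y h => hδ' (h.trans_le (min_le_left _ _))) (m + 1) (k + 1) α β
    (a0.trans b0.symm) (fun x => b0 ▸ hp (Set.mem_univ x)) (fun x => b1 ▸ hq (Set.mem_univ x))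
    (fun i hi => hd _ (e1 i) _ (a2 i (by omega)).1 _ (a2 i (by omega)).2)
    (fun i hi => hd _ (h1 i) _ (b2 i (by omega)).1 _ (b2 i (by omega)).2)
    (fun j hj => by
      rw [a1]
      refine haa.le.trans (hfar x hx _ (Set.mem_iUnion.2 ?_))
      rcases j with _ | j
      · exact ⟨0, (b2 0 (by omega)).1⟩
      · exact ⟨⟨j, by omega⟩, (b2 j (by omega)).2⟩)
  exact ⟨u, v, by linarith [min_le_right δ (ε / 2)], by linarith⟩

theorem result (X Y : Type) [MetricSpace X] [CompactSpace X] [ConnectedSpace X]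
    [MetricSpace Y] [CompactSpace Y] (hY : ArcLike Y) (f : X → Y) (hf : Continuous f)
    (a : ℝ) (ha : 0 < a) (haw : a < width X) :
    ∃ x y : X, dist x y = a ∧ f x = f y := by
  have hΦ : Continuous fun z : X × X => |dist z.1 z.2 - a| + dist (f z.1) (f z.2) := by fun_prop
  obtain ⟨z, -, hz⟩ := isCompact_univ.exists_isMinOn Set.univ_nonempty hΦ.continuousOn
  set μ := |dist z.1 z.2 - a| + dist (f z.1) (f z.2) with hμ
  by_cases h0 : μ ≤ 0
  · have h1 := abs_nonneg (dist z.1 z.2 - a)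
    have h2 := dist_nonneg (x := f z.1) (y := f z.2)
    exact ⟨z.1, z.2, sub_eq_zero.1 (abs_eq_zero.1 (by linarith)), dist_eq_zero.1 (by linarith)⟩
  exfalso
  push Not at h0
  obtain ⟨h, hh, -, hfib⟩ := hY (μ / 4) (by linarith)
  have hK : IsCompact {w : X × X | μ / 2 ≤ dist (f w.1) (f w.2)} :=
    (isClosed_le continuous_const (by fun_prop)).isCompact
  have hG : Continuous fun w : X × X => |(h (f w.1) : ℝ) - h (f w.2)| := by fun_prop
  obtain ⟨η, hη, hη'⟩ := hK.exists_forall_le' hG.continuousOn (a := 0) (by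
    intro w hw
    refine abs_pos.2 (sub_ne_zero.2 fun e => ?_)
    have e' : h (f w.1) = h (f w.2) := Subtype.ext e
    have := (Metric.dist_le_diam_of_mem Metric.isBounded_of_compactSpace
      (s := h ⁻¹' {h (f w.2)}) (x := f w.1) (y := f w.2) e' rfl).trans (hfib _)
    have hw' : μ / 2 ≤ dist (f w.1) (f w.2) := hw
    linarith)
  obtain ⟨x, y, h1, h2⟩ := approx X (fun x => (h (f x) : ℝ)) (by fun_prop) a ha haw (μ / 4) η
    (by linarith) hη
  have h3 : dist (f x) (f y) < μ / 2 := by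
    by_contra h3
    exact absurd (hη' (x, y) (not_lt.1 h3)) (not_le.2 h2)
  have h4 : μ ≤ |dist x y - a| + dist (f x) (f y) := hz (Set.mem_univ (x, y))
  linarith

end Pool.Agent.Results.MP_75c46b_gt.ExactDist
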